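import Mathlib
import Pool.Agent.Y523.WildMap
import Pool.Agent.Y523.WildLine

open Set Filter Topology MeasureTheory
open scoped ENNReal

namespace Pool.Agent.Results.MP_ecd4e3_gt.SpongeEmbedding

/-- Guth's sponge problem with topological embeddings: for every `n ≥ 1` there is `ε > 0` such
that every open set `U` of volume at most `ε` has a topological embedding in the closed unit ball
which does not decrease the length of any rectifiable curve in `U`. -/
theorem result (n : ℕ) (hn : 1 ≤ n) :
    ∃ ε : ℝ≥0∞, 0 < ε ∧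
      ∀ U : Set (EuclideanSpace ℝ (Fin n)), IsOpen U → volume U ≤ ε →
        ∃ f : EuclideanSpace ℝ (Fin n) → EuclideanSpace ℝ (Fin n),
          IsEmbedding (fun x : U => f x) ∧
          (∀ x ∈ U, f x ∈ Metric.closedBall (0 : EuclideanSpace ℝ (Fin n)) 1) ∧
          ∀ (a b : ℝ) (γ : ℝ → EuclideanSpace ℝ (Fin n)), a ≤ b →
            ContinuousOn γ (Icc a b) → MapsTo γ (Icc a b) U →
            eVariationOn γ (Icc a b) ≠ ⊤ →
            eVariationOn γ (Icc a b) ≤ eVariationOn (f ∘ γ) (Icc a b) := by
  rcases Nat.lt_or_ge 1 n with h | h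
  · obtain ⟨m, rfl⟩ : ∃ m, n = m + 2 := ⟨n - 2, by omega⟩
    refine ⟨1, one_pos, ?_⟩
    intro U _ _
    refine ⟨Y523.Sponge.wild, ?_, ?_, ?_⟩
    · exact Y523.Sponge.wild_embedding.comp IsEmbedding.subtypeVal
    · intro x _
      rw [mem_closedBall_zero_iff]
      exact Y523.Sponge.wild_norm x
    · intro a b γ _ hγ _ hbv
      exact Y523.Sponge.wild_length hγ hbv
  · obtain rfl : n = 1 := le_antisymm h hn
    refine ⟨1, one_pos, ?_⟩
    intro U hU hvol
    refine ⟨Y523.Sponge.push U, ?_, ?_, ?_⟩
    · exact Y523.Sponge.push_embedding hU hvol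
    · intro x _
      rw [mem_closedBall_zero_iff]
      exact Y523.Sponge.push_norm hU hvol x
    · intro a b γ _ hγ hmaps _
      exact Y523.Sponge.push_length hU hvol hγ hmaps

end Pool.Agent.Results.MP_ecd4e3_gt.SpongeEmbedding
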